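import Pool.Agent.helper45.SGC.Spec

/-!
# Row sy:BIA (MP_069684_lc): a binomial inequality
-/

set_option autoImplicit false

namespace Pool.Agent.SGC

open Finset Pool.Agent.helper38.Neg Pool.Agent.helper55.NT

lemma BIA_mul (a b i j : ℕ) : a.choose i * b.choose j ≤ (a + b).choose (i + j) := by
  rw [Nat.add_choose_eq]
  exact Finset.single_le_sum (f := fun ij : ℕ × ℕ => a.choose ij.1 * b.choose ij.2) (fun _ _ => Nat.zero_le _)
    (Finset.HasAntidiagonal.mem_antidiagonal.2 (show (i, j).1 + (i, j).2 = i + j from rfl))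

lemma BIA_four (w : ℕ) : 4 ^ w ≤ (2 * w + 1) * (2 * w).choose w := by
  rcases Nat.eq_zero_or_pos w with h | h
  · subst h
    simp
  · have h1 := Nat.four_pow_le_two_mul_self_mul_centralBinom w h
    rw [Nat.centralBinom] at h1
    refine h1.trans (Nat.mul_le_mul_right _ (Nat.le_succ _))

theorem BIA : BIA_stmt := by
  intro h w q hw
  have e1 : (2 ^ w) ^ 2 = 4 ^ w := by
    rw [← pow_mul, mul_comm w 2, pow_mul]
    norm_num
  have e2 : (h - w).choose q * (h - w).choose q ≤ (2 * (h - w)).choose (2 * q) := by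
    have := BIA_mul (h - w) (h - w) q q
    rwa [← two_mul, ← two_mul] at this
  have e3 : (2 * w).choose w * (2 * (h - w)).choose (2 * q) ≤ (2 * h).choose (w + 2 * q) := by
    have := BIA_mul (2 * w) (2 * (h - w)) w (2 * q)
    have e : 2 * w + 2 * (h - w) = 2 * h := by omega
    rwa [e] at this
  calc (2 ^ w * (h - w).choose q) ^ 2 = 4 ^ w * ((h - w).choose q * (h - w).choose q) := by
        rw [mul_pow, e1, sq ((h - w).choose q)]
    _ ≤ ((2 * w + 1) * (2 * w).choose w) * (2 * (h - w)).choose (2 * q) := Nat.mul_le_mul (BIA_four w) e2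
    _ = (2 * w + 1) * ((2 * w).choose w * (2 * (h - w)).choose (2 * q)) := by ring
    _ ≤ (2 * h + 1) * (2 * h).choose (w + 2 * q) := Nat.mul_le_mul (by omega) e3

end Pool.Agent.SGC
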